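import Mathlib

open Finset

namespace Pool.Agent.V11181.FIP

/-- a partite coloured system: vertices with a part map and a colouring of finite vertex sets -/
structure Sys (a : ℕ) (K : Type) where
  V : Type
  fin : Fintype V
  dec : DecidableEq V
  π : V → Fin a
  χ : Finset V → K

attribute [instance] Sys.fin Sys.dec

variable {a : ℕ} {K : Type}

/-- transversal `p`-sets -/
def Trans (P : Sys a K) (p : ℕ) (A : Finset P.V) : Prop :=
  A.card = p ∧ Set.InjOn P.π (A : Set P.V)

/-- copies -/
def IsCopy (P Q : Sys a K) (p : ℕ) (φ : P.V → Q.V) : Prop :=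
  Function.Injective φ ∧ (∀ v, Q.π (φ v) = P.π v) ∧
    ∀ A : Finset P.V, Trans P p A → Q.χ (A.image φ) = P.χ A

section lemma1

variable (P : Sys a K) (p : ℕ) (J : Finset (Fin a)) (i : K)

/-- the alphabet -/
def Edge : Type := {A : Finset P.V // Trans P p A ∧ A.image P.π = J ∧ P.χ A = i}

instance : Finite (Edge P p J i) := by unfold Edge; infer_instance

variable {P p J i}

theorem pick_ex (A : Edge P p J i) (b : Fin a) (hb : b ∈ J) : ∃ v ∈ A.1, P.π v = b := by
  have h := A.2.2.1
  rw [← h, mem_image] at hb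
  exact hb

/-- the vertex of `A` in part `b` -/
noncomputable def pick (A : Edge P p J i) (b : Fin a) (hb : b ∈ J) : P.V :=
  Classical.choose (pick_ex A b hb)

theorem pick_mem (A : Edge P p J i) (b : Fin a) (hb : b ∈ J) : pick A b hb ∈ A.1 :=
  (Classical.choose_spec (pick_ex A b hb)).1

theorem pick_part (A : Edge P p J i) (b : Fin a) (hb : b ∈ J) : P.π (pick A b hb) = b :=
  (Classical.choose_spec (pick_ex A b hb)).2

variable {ι : Type}

/-- the embedding attached to a line -/
noncomputable def phi (L : ι → Option (Edge P p J i)) (v : P.V) :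
    (ι → P.V) ⊕ ((ι → Option (Edge P p J i)) × P.V) :=
  if hv : P.π v ∈ J then
    Sum.inl (fun t => match L t with
      | none => v
      | some A => pick A (P.π v) hv)
  else Sum.inr (L, v)

theorem phi_of_mem (L : ι → Option (Edge P p J i)) (v : P.V) (hv : P.π v ∈ J) :
    phi L v = Sum.inl (fun t => match L t with
      | none => v
      | some A => pick A (P.π v) hv) := by
  unfold phi
  rw [dif_pos hv]

theorem phi_of_notMem (L : ι → Option (Edge P p J i)) (v : P.V) (hv : P.π v ∉ J) :
    phi L v = Sum.inr (L, v) := by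
  unfold phi
  rw [dif_neg hv]

theorem phi_inj (L : ι → Option (Edge P p J i)) (hL : ∃ t, L t = none) :
    Function.Injective (phi L) := by
  obtain ⟨t, ht⟩ := hL
  intro v w h
  by_cases hv : P.π v ∈ J
  · by_cases hw : P.π w ∈ J
    · rw [phi_of_mem L v hv, phi_of_mem L w hw] at h
      have h1 := congrFun (Sum.inl.inj h) t
      simp only [ht] at h1
      exact h1
    · rw [phi_of_mem L v hv, phi_of_notMem L w hw] at h
      cases h
  · by_cases hw : P.π w ∈ J
    · rw [phi_of_notMem L v hv, phi_of_mem L w hw] at h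
      cases h
    · rw [phi_of_notMem L v hv, phi_of_notMem L w hw] at h
      exact (Prod.mk.inj (Sum.inr.inj h)).2

variable [DecidableEq (ι → P.V)] [DecidableEq (ι → Option (Edge P p J i))]

theorem half (L L' : ι → Option (Edge P p J i)) (hL : ∃ t, L t = none)
    (A A' : Finset P.V) (hA : Trans P p A) (hA' : Trans P p A')
    (h : A.image (phi L) = A'.image (phi L')) : P.χ A = P.χ A' ∨ P.χ A = i := by
  by_cases hout : ∃ v ∈ A, P.π v ∉ J
  · obtain ⟨v, hv, hvJ⟩ := hout
    have h1 : phi L v ∈ A'.image (phi L') := by rw [← h]; exact mem_image_of_mem _ hv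
    obtain ⟨v', hv', hvv⟩ := mem_image.mp h1
    rw [phi_of_notMem L v hvJ] at hvv
    by_cases hv'J : P.π v' ∈ J
    · rw [phi_of_mem L' v' hv'J] at hvv
      cases hvv
    · rw [phi_of_notMem L' v' hv'J] at hvv
      have h2 : L' = L := (Prod.mk.inj (Sum.inr.inj hvv)).1
      subst h2
      left
      rw [Finset.image_injective (phi_inj L' hL) h]
  · push Not at hout
    obtain ⟨t, ht⟩ := hL
    have key : ∀ v ∈ A, ∃ v' ∈ A', ∃ hv' : P.π v' ∈ J, v = (match L' t with
      | none => v'
      | some B => pick B (P.π v') hv') := by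
      intro v hv
      have h1 : phi L v ∈ A'.image (phi L') := by rw [← h]; exact mem_image_of_mem _ hv
      obtain ⟨v', hv', hvv⟩ := mem_image.mp h1
      rw [phi_of_mem L v (hout v hv)] at hvv
      by_cases hv'J : P.π v' ∈ J
      · rw [phi_of_mem L' v' hv'J] at hvv
        have h2 := congrFun (Sum.inl.inj hvv) t
        simp only [ht] at h2
        exact ⟨v', hv', hv'J, h2.symm⟩
      · rw [phi_of_notMem L' v' hv'J] at hvv
        cases hvv
    cases hL't : L' t with
    | none =>
      left
      have hsub : A ⊆ A' := by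
        intro v hv
        obtain ⟨v', hv', hJ', h2⟩ := key v hv
        simp only [hL't] at h2
        rw [h2]
        exact hv'
      rw [Finset.eq_of_subset_of_card_le hsub (by rw [hA.1, hA'.1])]
    | some B =>
      right
      have hsub : A ⊆ B.1 := by
        intro v hv
        obtain ⟨v', hv', hJ', h2⟩ := key v hv
        simp only [hL't] at h2
        rw [h2]
        exact pick_mem B _ hJ'
      have h3 : A = B.1 := Finset.eq_of_subset_of_card_le hsub (by rw [hA.1, B.2.1.1])
      rw [h3]
      exact B.2.2.2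

theorem chi_wd (L L' : ι → Option (Edge P p J i)) (hL : ∃ t, L t = none)
    (hL' : ∃ t, L' t = none)
    (A A' : Finset P.V) (hA : Trans P p A) (hA' : Trans P p A')
    (h : A.image (phi L) = A'.image (phi L')) : P.χ A = P.χ A' := by
  rcases half L L' hL A A' hA hA' h with h1 | h1
  · exact h1
  · rcases half L' L hL' A' A hA' hA h.symm with h2 | h2
    · exact h2.symm
    · rw [h1, h2]

end lemma1

open Classical in
/-- the partite lemma -/
theorem partite (P : Sys a K) (p : ℕ) (J : Finset (Fin a)) (i : K) (R : Type) [Finite R]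
    [Nonempty R] :
    ∃ Q : Sys a K, ∀ c : Finset Q.V → R, ∃ φ : P.V → Q.V, IsCopy P Q p φ ∧
      ∃ s : R, ∀ A : Finset P.V, Trans P p A → A.image P.π = J → P.χ A = i →
        c (A.image φ) = s := by
  obtain ⟨ι, hfι, hι⟩ := Combinatorics.Line.exists_mono_in_high_dimension (Edge P p J i) R
  -- a coordinate
  obtain ⟨l0, _⟩ := hι (fun _ => Classical.arbitrary R)
  obtain ⟨t0, _⟩ := l0.proper
  have hfin : Fintype (ι → Option (Edge P p J i)) := Fintype.ofFinite _
  let W : Type := (ι → P.V) ⊕ ((ι → Option (Edge P p J i)) × P.V)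
  let Q : Sys a K :=
    { V := W
      fin := inferInstance
      dec := inferInstance
      π := fun w => match w with
        | Sum.inl y => P.π (y t0)
        | Sum.inr (_, v) => P.π v
      χ := fun B => if h : ∃ (L : ι → Option (Edge P p J i)) (A : Finset P.V),
          (∃ t, L t = none) ∧ Trans P p A ∧ A.image (phi L) = B
        then P.χ h.choose_spec.choose else P.χ ∅ }
  refine ⟨Q, fun c => ?_⟩
  let C : (ι → Edge P p J i) → R := fun x => c (J.attach.image
    (fun (b : {b // b ∈ J}) => (Sum.inl (fun t => pick (x t) b.1 b.2) : W)))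
  obtain ⟨l, hm⟩ := hι C
  obtain ⟨s, hl⟩ := hm
  refine ⟨phi l.idxFun, ⟨phi_inj _ l.proper, ?_, ?_⟩, s, ?_⟩
  · intro v
    by_cases hv : P.π v ∈ J
    · rw [phi_of_mem _ v hv]
      change P.π (match l.idxFun t0 with
        | none => v
        | some A => pick A (P.π v) hv) = P.π v
      cases l.idxFun t0 with
      | none => rfl
      | some A => exact pick_part A _ hv
    · rw [phi_of_notMem _ v hv]
  · intro A hA
    have h : ∃ (L : ι → Option (Edge P p J i)) (A' : Finset P.V),
        (∃ t, L t = none) ∧ Trans P p A' ∧ A'.image (phi L) = A.image (phi l.idxFun) :=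
      ⟨l.idxFun, A, l.proper, hA, rfl⟩
    change (if h : ∃ (L : ι → Option (Edge P p J i)) (A' : Finset P.V),
        (∃ t, L t = none) ∧ Trans P p A' ∧ A'.image (phi L) = A.image (phi l.idxFun)
      then P.χ h.choose_spec.choose else P.χ ∅) = P.χ A
    rw [dif_pos h]
    have h2 := h.choose_spec.choose_spec
    exact chi_wd _ _ h2.1 l.proper _ _ h2.2.1 hA h2.2.2
  · intro A hA hAJ hAi
    let A0 : Edge P p J i := ⟨A, hA, hAJ, hAi⟩
    have h1 := hl A0
    rw [← h1]
    congr 1
    ext w
    constructor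
    · intro hw
      obtain ⟨v, hv, rfl⟩ := mem_image.mp hw
      have hvJ : P.π v ∈ J := by rw [← hAJ]; exact mem_image_of_mem _ hv
      refine mem_image.mpr ⟨⟨P.π v, hvJ⟩, mem_attach _ _, ?_⟩
      rw [phi_of_mem _ v hvJ]
      congr 1
      funext t
      rw [Combinatorics.Line.coe_apply]
      cases l.idxFun t with
      | none =>
        simp only [Option.getD_none]
        exact hA.2 (pick_mem A0 _ hvJ) hv (pick_part A0 _ hvJ)
      | some B => simp only [Option.getD_some]
    · intro hw
      obtain ⟨⟨b, hb⟩, -, rfl⟩ := mem_image.mp hw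
      have hpm := pick_mem A0 b hb
      have hpp := pick_part A0 b hb
      refine mem_image.mpr ⟨pick A0 b hb, hpm, ?_⟩
      have hvJ : P.π (pick A0 b hb) ∈ J := by rw [hpp]; exact hb
      rw [phi_of_mem _ _ hvJ]
      congr 1
      funext t
      rw [Combinatorics.Line.coe_apply]
      cases l.idxFun t with
      | none => simp only [Option.getD_none]
      | some B =>
        simp only [Option.getD_some]
        congr 1

theorem IsCopy.comp {P Q S : Sys a K} {p : ℕ} {φ : P.V → Q.V} {ψ : Q.V → S.V}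
    (h1 : IsCopy P Q p φ) (h2 : IsCopy Q S p ψ) : IsCopy P S p (ψ ∘ φ) := by
  obtain ⟨i1, p1, c1⟩ := h1
  obtain ⟨i2, p2, c2⟩ := h2
  refine ⟨i2.comp i1, fun v => by rw [Function.comp_apply, p2, p1], ?_⟩
  intro A hA
  rw [← Finset.image_image, c2, c1 A hA]
  refine ⟨by rw [Finset.card_image_of_injective _ i1]; exact hA.1, ?_⟩
  intro x hx y hy hxy
  rw [Finset.coe_image] at hx hy
  obtain ⟨v, hv, rfl⟩ := hx
  obtain ⟨w, hw, rfl⟩ := hy
  rw [p1, p1] at hxy
  rw [hA.2 hv hw hxy]

theorem IsCopy.trans_image {P Q : Sys a K} {p : ℕ} {φ : P.V → Q.V} (h : IsCopy P Q p φ)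
    {A : Finset P.V} (hA : Trans P p A) :
    Trans Q p (A.image φ) ∧ (A.image φ).image Q.π = A.image P.π := by
  obtain ⟨i1, p1, c1⟩ := h
  refine ⟨⟨by rw [Finset.card_image_of_injective _ i1]; exact hA.1, ?_⟩, ?_⟩
  · intro x hx y hy hxy
    rw [Finset.coe_image] at hx hy
    obtain ⟨v, hv, rfl⟩ := hx
    obtain ⟨w, hw, rfl⟩ := hy
    rw [p1, p1] at hxy
    rw [hA.2 hv hw hxy]
  · rw [Finset.image_image]
    apply Finset.image_congr
    intro v _
    exact p1 v

theorem iter (p : ℕ) (R : Type) [Finite R] [Nonempty R] (l : List (Finset (Fin a) × K)) :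
    ∀ P : Sys a K, ∃ Q : Sys a K, ∀ c : Finset Q.V → R, ∃ φ : P.V → Q.V, IsCopy P Q p φ ∧
      ∀ z ∈ l, ∃ s : R, ∀ A : Finset P.V, Trans P p A → A.image P.π = z.1 → P.χ A = z.2 →
        c (A.image φ) = s := by
  induction l with
  | nil =>
    intro P
    refine ⟨P, fun c => ⟨id, ⟨Function.injective_id, fun _ => rfl, fun A _ => by simp⟩, ?_⟩⟩
    intro z hz
    cases hz
  | cons z l ih =>
    intro P
    obtain ⟨P1, h1⟩ := partite P p z.1 z.2 R
    obtain ⟨Q, hQ⟩ := ih P1
    refine ⟨Q, fun c => ?_⟩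
    obtain ⟨ψ, hψ, hψl⟩ := hQ c
    obtain ⟨φ, hφ, s, hs⟩ := h1 (fun A => c (A.image ψ))
    refine ⟨ψ ∘ φ, hφ.comp hψ, ?_⟩
    intro w hw
    rw [List.mem_cons] at hw
    rcases hw with rfl | hw
    · refine ⟨s, fun A hA hAJ hAi => ?_⟩
      rw [← Finset.image_image]
      exact hs A hA hAJ hAi
    · obtain ⟨s', hs'⟩ := hψl w hw
      refine ⟨s', fun A hA hAJ hAi => ?_⟩
      rw [← Finset.image_image]
      have h3 := hφ.trans_image hA
      exact hs' _ h3.1 (by rw [h3.2]; exact hAJ) (by rw [hφ.2.2 A hA]; exact hAi)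

end Pool.Agent.V11181.FIP
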