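import Mathlib
import Pool.Agent.V11181.FIP.Partite
import Pool.Agent.H507R3.RamAll

open Finset

namespace Pool.Agent.V11181.FIP

open Classical in
/-- the base system: one copy of `[N]` for every colour pattern -/
noncomputable def base (N : ℕ) (K : Type) [Fintype K] [Nonempty K] : Sys N K where
  V := (Finset (Fin N) → K) × Fin N
  fin := inferInstance
  dec := inferInstance
  π := Prod.snd
  χ A := if h : ∃ H, ∀ v ∈ A, v.1 = H then h.choose (A.image Prod.snd)
    else Classical.arbitrary K

open Classical in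
theorem struct_ramsey (p r : ℕ) (hp : 1 ≤ p) (K R : Type) [Fintype K] [Nonempty K]
    [Fintype R] [Nonempty R] :
    ∃ (V : Type) (_ : Fintype V) (_ : DecidableEq V) (χ : Finset V → K),
      ∀ c : Finset V → R, ∃ g : K → R, ∀ h : Finset (Fin r) → K,
        ∃ φ : Fin r → V, Function.Injective φ ∧
          ∀ B : Finset (Fin r), B.card = p →
            χ (B.image φ) = h B ∧ c (B.image φ) = g (h B) := by
  obtain ⟨N, hN⟩ := Pool.Agent.H507R3.RamAll.ramsey_finset (K → R) p r
  obtain ⟨Q, hQ⟩ := iter (a := N) (K := K) p R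
    (univ : Finset (Finset (Fin N) × K)).toList (base N K)
  refine ⟨Q.V, Q.fin, Q.dec, Q.χ, fun c => ?_⟩
  obtain ⟨φ, hφ, hG⟩ := hQ c
  have hG' : ∀ z : Finset (Fin N) × K, ∃ s : R, ∀ A : Finset (base N K).V,
      Trans (base N K) p A → A.image (base N K).π = z.1 → (base N K).χ A = z.2 →
        c (A.image φ) = s := fun z => hG z (by simp)
  choose G hG2 using hG'
  obtain ⟨T, hT, hTr, g, hg⟩ := hN (range N)
    (fun T i => G (univ.filter (fun b : Fin N => b.1 ∈ T), i)) (by simp)
  refine ⟨g, fun h => ?_⟩
  let e := T.orderIsoOfFin hTr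
  let τ : Fin r → Fin N := fun j => ⟨(e j).1, by
    have := hT (e j).2
    simpa using this⟩
  have hτ : Function.Injective τ := by
    intro j j' hjj
    have h1 : (e j).1 = (e j').1 := congrArg Fin.val hjj
    exact e.injective (Subtype.ext h1)
  have hτT : ∀ j, (τ j).1 ∈ T := fun j => (e j).2
  let H : Finset (Fin N) → K := fun J => h (univ.filter (fun j : Fin r => τ j ∈ J))
  have hH : ∀ B : Finset (Fin r), H (B.image τ) = h B := by
    intro B
    change h (univ.filter (fun j : Fin r => τ j ∈ B.image τ)) = h B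
    congr 1
    ext j
    simp only [mem_filter, mem_univ, true_and, mem_image]
    constructor
    · rintro ⟨j', hj', hjj⟩
      rw [← hτ hjj]
      exact hj'
    · intro hj
      exact ⟨j, hj, rfl⟩
  let u : Fin r → (base N K).V := fun j => (H, τ j)
  have hu : Function.Injective u := fun j j' hjj => hτ (Prod.mk.inj hjj).2
  refine ⟨fun j => φ (u j), hφ.1.comp hu, ?_⟩
  intro B hB
  have hBne : B.Nonempty := by rw [← Finset.card_pos]; omega
  have himg : B.image (fun j => φ (u j)) = (B.image u).image φ := by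
    rw [Finset.image_image]; rfl
  have htr : Trans (base N K) p (B.image u) := by
    refine ⟨by rw [Finset.card_image_of_injective _ hu]; exact hB, ?_⟩
    intro x hx y hy hxy
    rw [Finset.coe_image] at hx hy
    obtain ⟨j, hj, rfl⟩ := hx
    obtain ⟨j', hj', rfl⟩ := hy
    have h1 : τ j = τ j' := hxy
    rw [hτ h1]
  have hpi : (B.image u).image (base N K).π = B.image τ := by
    rw [Finset.image_image]; rfl
  have hchi : (base N K).χ (B.image u) = h B := by
    have hex : ∃ H', ∀ v ∈ B.image u, v.1 = H' := ⟨H, by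
      intro v hv
      obtain ⟨j, _, rfl⟩ := mem_image.mp hv
      rfl⟩
    change (if h : ∃ H', ∀ v ∈ B.image u, v.1 = H' then h.choose ((B.image u).image Prod.snd)
      else Classical.arbitrary K) = h B
    rw [dif_pos hex]
    have h1 := hex.choose_spec
    obtain ⟨j, hj⟩ := hBne
    have h2 : H = hex.choose := h1 (u j) (mem_image_of_mem _ hj)
    rw [← h2]
    have h3 : (B.image u).image Prod.snd = B.image τ := hpi
    rw [h3, hH]
  refine ⟨?_, ?_⟩
  · rw [himg, hφ.2.2 _ htr, hchi]
  · rw [himg, hG2 (B.image τ, h B) _ htr hpi hchi]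
    have h1 := hg ((B.image τ).image Fin.val) (by
      intro x hx
      obtain ⟨b, hb, rfl⟩ := mem_image.mp hx
      obtain ⟨j, hj, rfl⟩ := mem_image.mp hb
      exact hτT j) (by
      rw [Finset.card_image_of_injective _ Fin.val_injective,
        Finset.card_image_of_injective _ hτ, hB])
    have h2 := congrFun h1 (h B)
    rw [← h2]
    congr 2
    ext b
    simp only [mem_filter, mem_univ, true_and, mem_image]
    constructor
    · rintro ⟨j, hj, rfl⟩
      exact ⟨τ j, ⟨j, hj, rfl⟩, rfl⟩
    · rintro ⟨b', ⟨j, hj, rfl⟩, hb'⟩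
      exact ⟨j, hj, Fin.ext hb'⟩

end Pool.Agent.V11181.FIP
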